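import Pool.Agent.H.MP_de432b_gt.GC

namespace Pool.Agent.Results.MP_bb77e0_gt.No
open Pool.Agent.H.MP_3020f5_gt Pool.Agent.H.MP_bb77e0_gt Pool.Agent.H.MP_de432b_gt

theorem top_eq : (inferInstance : TopologicalSpace XC) = concTop := by
  refine TopologicalSpace.ext_iff.2 fun U => Metric.isOpen_iff.trans ⟨fun h A hA => ?_, fun h a ha => ?_⟩
  · obtain ⟨ε, hε, h⟩ := h (clsC A) hA
    exact ⟨ε, hε, fun B hB => h (Metric.mem_ball'.2 hB)⟩
  · obtain ⟨A, rfl⟩ := clsC_surj a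
    obtain ⟨ε, hε, h⟩ := h A ha
    refine ⟨ε, hε, fun b hb => ?_⟩
    obtain ⟨B, rfl⟩ := clsC_surj b
    exact h B (Metric.mem_ball'.1 hb)

theorem result : ¬ SigmaCompactSpace XC := by
  intro h
  have h' : @SigmaCompactSpace XC concTop := top_eq ▸ h
  exact main (@SigmaCompactSpace.isSigmaCompact_univ XX concTop h')

end Pool.Agent.Results.MP_bb77e0_gt.No
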